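import Pool.Agent.helper64.D2.SpecS

/-!
# Module KSG of project dc (helper30): moving a slot
-/

set_option autoImplicit false

open Filter Topology

namespace Pool.Agent.helper64.D2

theorem KSG_sh (k : ℕ) (g : DD) : sh (Pi.mulSingle k g) = (Pi.mulSingle (k + 1) g : ℕ → DD) ∨ k = 0 := by
  rcases Nat.eq_zero_or_pos k with hk | hk
  · exact Or.inr hk
  · left
    funext j
    show (Pi.mulSingle k g : ℕ → DD) (j - 1) = (Pi.mulSingle (k + 1) g : ℕ → DD) j
    rcases Nat.eq_zero_or_pos j with hj | hj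
    · subst hj
      rw [Pi.mulSingle_eq_of_ne (by omega), Pi.mulSingle_eq_of_ne (by omega)]
    · by_cases hjk : j = k + 1
      · subst hjk
        rw [Nat.add_sub_cancel, Pi.mulSingle_eq_same, Pi.mulSingle_eq_same]
      · rw [Pi.mulSingle_eq_of_ne (by omega), Pi.mulSingle_eq_of_ne hjk]

theorem KSG_step (hADM : ADM_stmt) (k : ℕ) (g : DD) (hk : 2 ≤ k) :
    (Pi.mulSingle (k + 1) g : ℕ → DD) ∈ K0 ↔ (Pi.mulSingle k g : ℕ → DD) ∈ K0 := by
  have h1 : (Pi.mulSingle (k + 1) g : ℕ → DD) * (Pi.mulSingle k g : ℕ → DD)⁻¹ ∈ K0 := by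
    apply Subgroup.subset_closure
    right
    refine ⟨Pi.mulSingle k g, hADM.2.2.2.2 k g hk, ?_⟩
    rcases KSG_sh k g with h | h
    · rw [h]
    · omega
  constructor
  · intro h2
    have h3 := K0.mul_mem (K0.inv_mem h1) h2
    simpa using h3
  · intro h2
    have h3 := K0.mul_mem h1 h2
    simpa using h3

theorem KSG (hADM : ADM_stmt) : KSG_stmt := by
  intro k g hk
  induction k, hk using Nat.le_induction with
  | base => exact Iff.rfl
  | succ k hk ih => exact (KSG_step hADM k g hk).trans ih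

end Pool.Agent.helper64.D2
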