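import Pool.Agent.helper64.D2.SpecR

set_option autoImplicit false

open Filter Topology

namespace Pool.Agent.helper64.D2

theorem RG1 : RG1_stmt := by
  rintro X p q a lam ⟨hC, hz, hX', -, -, hpq, -, hl0, hl1, -⟩
  have hd : ∀ u, HasDerivAt (Hh X) (1 + deriv X u / 2) u := by
    intro u
    have h1 : DifferentiableAt ℝ X u := (hC.differentiable (by norm_num)).differentiableAt
    exact (hasDerivAt_id u).add (h1.hasDerivAt.div_const 2)
  have hpos : ∀ u, 0 < 1 + deriv X u / 2 := by
    intro u
    have := abs_le.1 (hX' u)
    linarith [this.1]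
  have hmono : StrictMono (Hh X) :=
    strictMono_of_deriv_pos (fun u => by rw [(hd u).deriv]; exact hpos u)
  have hcont : Continuous (Hh X) :=
    continuous_iff_continuousAt.2 (fun u => (hd u).continuousAt)
  have hout : ∀ u, u ∉ Set.Icc p q → Hh X u = u := by
    intro u hu
    unfold Hh
    rw [hz u hu]; ring
  have hsurj : Function.Surjective (Hh X) := by
    apply hcont.surjective
    · refine (tendsto_id (α := ℝ) (x := atTop)).congr' ?_
      filter_upwards [eventually_gt_atTop q] with u hu
      exact (hout u (fun h => absurd h.2 (not_le.2 hu))).symm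
    · refine (tendsto_id (α := ℝ) (x := atBot)).congr' ?_
      filter_upwards [eventually_lt_atBot p] with u hu
      exact (hout u (fun h => absurd h.1 (not_le.2 hu))).symm
  let e : ℝ ≃o ℝ := StrictMono.orderIsoOfSurjective (Hh X) hmono hsurj
  have he1 : ∀ u, e.symm (Hh X u) = u := fun u => e.symm_apply_apply u
  have he2 : ∀ y, Hh X (e.symm y) = y := fun y => e.apply_symm_apply y
  have hec : Continuous e.symm := e.symm.continuous
  refine ⟨hd, hmono, e.symm, ⟨he1, he2, hec⟩, e.symm.strictMono, ?_, ?_⟩
  · intro y hy
    have := he1 y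
    rwa [hout y hy] at this
  · intro y
    have h1 := HasDerivAt.of_local_left_inverse hec.continuousAt (hd (e.symm y)) (hpos _).ne'
      (Eventually.of_forall he2)
    rw [one_div]; exact h1

end Pool.Agent.helper64.D2
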